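import Pool.Agent.H80.Lower

set_option autoImplicit false

namespace Pool.Agent.Results.MP_5a645a_al.ExactValue

/-- The colour-preserving subgroup of a permutation group `G` on `Ω` with respect to the
2-colouring `γ`: all `g` in `G` with `γ (g ω) = γ ω` for every point `ω`. -/
def colourStab {Ω : Type} (G : Subgroup (Equiv.Perm Ω)) (γ : Ω → Fin 2) :
    Subgroup (Equiv.Perm Ω) where
  carrier := {g | g ∈ G ∧ ∀ ω, γ (g ω) = γ ω}
  mul_mem' := by
    rintro a b ⟨ha, ha'⟩ ⟨hb, hb'⟩
    exact ⟨G.mul_mem ha hb, fun ω => by rw [Equiv.Perm.mul_apply, ha', hb']⟩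
  one_mem' := ⟨G.one_mem, fun ω => rfl⟩
  inv_mem' := by
    rintro a ⟨ha, ha'⟩
    refine ⟨G.inv_mem ha, fun ω => ?_⟩
    have := ha' (a⁻¹ ω)
    rw [← Equiv.Perm.mul_apply, mul_inv_cancel, Equiv.Perm.one_apply] at this
    exact this.symm

/-- The least `c` such that every solvable permutation group on a finite set has a 2-colouring
whose colour-preserving subgroup has derived length at most `c` equals 3. -/
theorem result :
    IsLeast {c : ℕ | ∀ (Ω : Type) [Finite Ω] (G : Subgroup (Equiv.Perm Ω)),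
      Group.IsSolvable G → ∃ γ : Ω → Fin 2, derivedSeries (colourStab G γ) c = ⊥} 3 := by
  constructor
  · intro Ω _ G hG
    haveI := hG
    obtain ⟨γ, hγ⟩ := Pool.Agent.H80.upper G
    exact ⟨γ, (Pool.Agent.H80.derivedSeries_eq_bot_iff _ 3).2 hγ⟩
  · intro c hc
    by_contra hlt
    have hle : c ≤ 2 := by omega
    obtain ⟨γ, hγ⟩ := hc _ _ Pool.Agent.H80.solv64
    have h1 := (Pool.Agent.H80.derivedSeries_eq_bot_iff _ c).1 hγ
    exact Pool.Agent.H80.lower γ (Pool.Agent.H80.D_eq_bot_of_le hle h1)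

end Pool.Agent.Results.MP_5a645a_al.ExactValue
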